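import Pool.Agent.Helper10_MBX.SDY

/-!
# MBX squad, row SDX: differentiation of wave functions in space
-/

set_option autoImplicit false

open MeasureTheory Complex ProbabilityTheory

noncomputable section

namespace Pool.Agent.MBX.H85

open Pool.Agent.MBX Pool.Agent.Helper49_Pauli

variable {ι : Type} [Fintype ι] [DecidableEq ι]

theorem cs_zero : CS (0 : X3 → ℂ) := ⟨contDiff_const, HasCompactSupport.zero⟩

theorem cs_add {f g : X3 → ℂ} (hf : CS f) (hg : CS g) : CS (f + g) :=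
  ⟨hf.1.add hg.1, hf.2.add hg.2⟩

theorem cs_mul {f : X3 → ℂ} (c : ℂ) (hf : CS f) : CS (fun x => c * f x) :=
  ⟨contDiff_const.mul hf.1, hf.2.mul_left⟩

theorem cs_deriv {f : X3 → ℂ} (hf : CS f) (v : X3) : CS (fun x => fderiv ℝ f x v) := by
  refine ⟨?_, hf.2.fderiv_apply (𝕜 := ℝ) v⟩
  exact (hf.1.fderiv_right (m := (⊤ : ℕ∞)) (by exact_mod_cast le_top)).clm_apply contDiff_const

theorem cs_diff {f : X3 → ℂ} (hf : CS f) (x : X3) : DifferentiableAt ℝ f x :=
  (hf.1.differentiable (by simp)).differentiableAt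

theorem csAll (q : (ι → ℝ) → X3 → ℂ) (hq : q ∈ SS ι) : ∀ y, CS (q y) := by
  unfold SS at hq
  induction hq using Submodule.span_induction with
  | mem h hh =>
    obtain ⟨P, f, hf, rfl⟩ := hh
    exact fun y => cs_mul _ hf
  | zero => exact fun y => cs_zero
  | add a b _ _ ha hb => exact fun y => cs_add (ha y) (hb y)
  | smul c a _ ha => exact fun y => cs_mul c (ha y)

theorem dX_gen (j : Fin 3) (P : MvPolynomial ι ℂ) {f : X3 → ℂ} (hf : CS f) :
    dX j (Gen P f) = Gen P (fun x => fderiv ℝ f x (Pi.single j 1)) := by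
  funext y x
  unfold dX Gen
  rw [fderiv_const_mul (cs_diff hf x)]
  rfl

theorem dX_add (j : Fin 3) {a b : (ι → ℝ) → X3 → ℂ} (ha : ∀ y, CS (a y)) (hb : ∀ y, CS (b y)) :
    dX j (a + b) = dX j a + dX j b := by
  funext y x
  change fderiv ℝ (a y + b y) x (Pi.single j 1) = fderiv ℝ (a y) x (Pi.single j 1) +
    fderiv ℝ (b y) x (Pi.single j 1)
  rw [fderiv_add (cs_diff (ha y) x) (cs_diff (hb y) x)]
  rfl

theorem dX_smul (j : Fin 3) (c : ℂ) {a : (ι → ℝ) → X3 → ℂ} (ha : ∀ y, CS (a y)) :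
    dX j (c • a) = c • dX j a := by
  funext y x
  change fderiv ℝ (fun z => c * a y z) x (Pi.single j 1) = c * fderiv ℝ (a y) x (Pi.single j 1)
  rw [fderiv_const_mul (cs_diff (ha y) x)]
  rfl

theorem dX_zero (j : Fin 3) : dX j (0 : (ι → ℝ) → X3 → ℂ) = 0 := by
  funext y x
  change fderiv ℝ (fun _ : X3 => (0 : ℂ)) x (Pi.single j 1) = 0
  rw [fderiv_fun_const]
  rfl

theorem dX_mem (j : Fin 3) (q : (ι → ℝ) → X3 → ℂ) (hq : q ∈ SS ι) : dX j q ∈ SS ι := by
  unfold SS at hq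
  induction hq using Submodule.span_induction with
  | mem h hh =>
    obtain ⟨P, f, hf, rfl⟩ := hh
    rw [dX_gen j P hf]
    exact H10.genMem P _ (cs_deriv hf _)
  | zero =>
    rw [dX_zero]
    exact Submodule.zero_mem _
  | add a b ha' hb' ha hb =>
    rw [dX_add j (csAll a ha') (csAll b hb')]
    exact Submodule.add_mem _ ha hb
  | smul c a ha' ha =>
    rw [dX_smul j c (csAll a ha')]
    exact Submodule.smul_mem _ c ha

theorem dY_gen (i : ι) (P : MvPolynomial ι ℂ) (f : X3 → ℂ) :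
    dY i (Gen P f) = Gen (MvPolynomial.pderiv i P) f := by
  funext y x
  exact ((H10.polyDeriv i P y).mul_const (f x)).deriv

theorem dY_add (i : ι) {a b : (ι → ℝ) → X3 → ℂ} (ha : a ∈ SS ι) (hb : b ∈ SS ι) :
    dY i (a + b) = dY i a + dY i b := by
  funext y x
  exact (((H10.sdy ι a ha i).2 y x).add ((H10.sdy ι b hb i).2 y x)).deriv

theorem dY_smul (i : ι) (c : ℂ) {a : (ι → ℝ) → X3 → ℂ} (ha : a ∈ SS ι) :
    dY i (c • a) = c • dY i a := by
  funext y x
  exact (((H10.sdy ι a ha i).2 y x).const_mul c).deriv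

theorem dY_zero (i : ι) : dY i (0 : (ι → ℝ) → X3 → ℂ) = 0 := by
  funext y x
  exact deriv_const _ _

theorem comm (i : ι) (j : Fin 3) (q : (ι → ℝ) → X3 → ℂ) (hq : q ∈ SS ι) :
    dY i (dX j q) = dX j (dY i q) := by
  unfold SS at hq
  induction hq using Submodule.span_induction with
  | mem h hh =>
    obtain ⟨P, f, hf, rfl⟩ := hh
    rw [dX_gen j P hf, dY_gen, dY_gen, dX_gen j _ hf]
  | zero => rw [dX_zero, dY_zero, dX_zero]
  | add a b ha' hb' ha hb =>
    rw [dX_add j (csAll a ha') (csAll b hb'), dY_add i (dX_mem j a ha') (dX_mem j b hb'),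
      dY_add i ha' hb', dX_add j (csAll _ (H10.sdy ι a ha' i).1) (csAll _ (H10.sdy ι b hb' i).1),
      ha, hb]
  | smul c a ha' ha =>
    rw [dX_smul j c (csAll a ha'), dY_smul i c (dX_mem j a ha'), dY_smul i c ha',
      dX_smul j c (csAll _ (H10.sdy ι a ha' i).1), ha]

theorem sdx : SdxStmt := by
  intro ι _ _ q hq
  exact ⟨csAll q hq, fun j => dX_mem j q hq, fun i j => comm i j q hq⟩

end Pool.Agent.MBX.H85
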